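import Pool.Agent.Helper84.WC.Basic

/-!
# WC-1 : operator K-theory vanishes
-/

set_option linter.unusedSimpArgs false
set_option linter.unusedSectionVars false

open MeasureTheory Topology
open scoped ENNReal ZeroAtInfty InnerProductSpace

namespace Pool.Agent.Helper84.WC

section wc1_general

variable {R : Type*} [Ring R] [StarRing R] [TopologicalSpace R]
variable {R' : Type*} [Ring R'] [StarRing R'] [TopologicalSpace R']
variable {P : ∀ n : ℕ, Set (Matrix (Fin n) (Fin n) R)} {e : ∀ n : ℕ, Matrix (Fin n) (Fin n) R}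
variable {P' : ∀ n : ℕ, Set (Matrix (Fin n) (Fin n) R')}
  {e' : ∀ n : ℕ, Matrix (Fin n) (Fin n) R'}

omit [StarRing R] in
lemma wc1_mk_eq_of_joined {n : ℕ} (p q : P n) (h : JoinedIn (P n) p.1 q.1) :
    (KGrp.mk p : KGrp P e) = KGrp.mk q := by
  refine (QuotientAddGroup.eq_iff_sub_mem).2 ?_
  exact AddSubgroup.subset_closure (Or.inl (Or.inl ⟨n, p, q, h, rfl⟩))

omit [StarRing R] in
lemma wc1_mk_bsum {m n : ℕ} (p : P m) (q : P n) (r : P (m + n)) (h : r.1 = bsum p.1 q.1) :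
    (KGrp.mk r : KGrp P e) = KGrp.mk p + KGrp.mk q := by
  have h1 : (KGrp.mk r : KGrp P e) =
      (QuotientAddGroup.mk (FreeAbelianGroup.of ⟨m, p⟩ + FreeAbelianGroup.of ⟨n, q⟩) :
        FreeAbelianGroup (Σ n : ℕ, P n) ⧸ AddSubgroup.closure (KRel P e)) := by
    refine (QuotientAddGroup.eq_iff_sub_mem).2 ?_
    exact AddSubgroup.subset_closure (Or.inl (Or.inr ⟨m, n, p, q, r, h, rfl⟩))
  rw [h1]
  rfl

omit [StarRing R] [StarRing R'] in
lemma wc1_map_mk (f : R →+* R') (hf : Continuous f) (hP : ∀ n, ∀ a ∈ P n, a.map f ∈ P' n)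
    (he : ∀ n, (e n).map f = e' n) {n : ℕ} (p : P n) :
    (KGrp.map f hf hP he : KGrp P e →+ KGrp P' e') (KGrp.mk p) =
      KGrp.mk ⟨p.1.map f, hP _ _ p.2⟩ := by
  unfold KGrp.map KGrp.mk
  erw [QuotientAddGroup.map_mk]
  rw [FreeAbelianGroup.map_of_apply]

omit [StarRing R] in
lemma wc1_hom_ext {B : Type*} [AddCommGroup B] (f g : KGrp P e →+ B)
    (h : ∀ (n : ℕ) (p : P n), f (KGrp.mk p) = g (KGrp.mk p)) : f = g := by
  refine QuotientAddGroup.addMonoidHom_ext _ ?_
  refine FreeAbelianGroup.lift_ext _ _ ?_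
  rintro ⟨n, p⟩
  exact h n p

end wc1_general

section wc1_bsum

variable {R : Type*} [Ring R] [StarRing R]

omit [StarRing R] in
lemma wc1_bsum_mul {m n : ℕ} (a c : Matrix (Fin m) (Fin m) R) (b d : Matrix (Fin n) (Fin n) R) :
    bsum a b * bsum c d = bsum (a * c) (b * d) := by
  unfold bsum
  rw [Matrix.submatrix_mul_equiv, Matrix.fromBlocks_multiply]
  simp

lemma wc1_bsum_star {m n : ℕ} (a : Matrix (Fin m) (Fin m) R) (b : Matrix (Fin n) (Fin n) R) :
    star (bsum a b) = bsum (star a) (star b) := by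
  unfold bsum
  rw [Matrix.star_eq_conjTranspose, Matrix.star_eq_conjTranspose, Matrix.star_eq_conjTranspose,
    Matrix.conjTranspose_submatrix, Matrix.fromBlocks_conjTranspose]
  simp

omit [StarRing R] in
lemma wc1_bsum_one {m n : ℕ} :
    bsum (1 : Matrix (Fin m) (Fin m) R) (1 : Matrix (Fin n) (Fin n) R) = 1 := by
  unfold bsum
  rw [Matrix.fromBlocks_one, Matrix.submatrix_one_equiv]

lemma wc1_bsum_proj {m n : ℕ} {a : Matrix (Fin m) (Fin m) R} {b : Matrix (Fin n) (Fin n) R}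
    (ha : a ∈ proj R m) (hb : b ∈ proj R n) : bsum a b ∈ proj R (m + n) := by
  refine ⟨?_, ?_⟩
  · rw [wc1_bsum_mul, ha.1, hb.1]
  · rw [wc1_bsum_star, ha.2, hb.2]

lemma wc1_bsum_unit {m n : ℕ} {a : Matrix (Fin m) (Fin m) R} {b : Matrix (Fin n) (Fin n) R}
    (ha : a ∈ unit R m) (hb : b ∈ unit R n) : bsum a b ∈ unit R (m + n) := by
  refine ⟨?_, ?_⟩
  · rw [wc1_bsum_star, wc1_bsum_mul, ha.1, hb.1, wc1_bsum_one]
  · rw [wc1_bsum_star, wc1_bsum_mul, ha.2, hb.2, wc1_bsum_one]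

/-- the index equivalence `Fin (n+n+n) ≃ Fin n × Fin 3` -/
def wc1_idx (n : ℕ) : Fin (n + n + n) ≃ Fin n × Fin 3 :=
  finSumFinEquiv.symm.trans
    ((Equiv.sumCongr finSumFinEquiv.symm (Equiv.refl _)).trans
      { toFun := fun x => match x with
          | Sum.inl (Sum.inl i) => (i, 0)
          | Sum.inl (Sum.inr i) => (i, 1)
          | Sum.inr i => (i, 2)
        invFun := fun x => match x with
          | (i, 0) => Sum.inl (Sum.inl i)
          | (i, 1) => Sum.inl (Sum.inr i)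
          | (i, 2) => Sum.inr i
        left_inv := by
          rintro ((i | i) | i) <;> rfl
        right_inv := by
          rintro ⟨i, k⟩
          fin_cases k <;> rfl })

lemma wc1_idx_zero {n : ℕ} (i : Fin n) :
    wc1_idx n (finSumFinEquiv (Sum.inl (finSumFinEquiv (Sum.inl i)))) = (i, 0) := by
  simp only [wc1_idx, Equiv.trans_apply, Equiv.symm_apply_apply, Equiv.sumCongr_apply,
    Sum.map_inl]
  rfl

lemma wc1_idx_one {n : ℕ} (i : Fin n) :
    wc1_idx n (finSumFinEquiv (Sum.inl (finSumFinEquiv (Sum.inr i)))) = (i, 1) := by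
  simp only [wc1_idx, Equiv.trans_apply, Equiv.symm_apply_apply, Equiv.sumCongr_apply,
    Sum.map_inl]
  rfl

lemma wc1_idx_two {n : ℕ} (i : Fin n) :
    wc1_idx n (finSumFinEquiv (Sum.inr i)) = (i, 2) := by
  simp only [wc1_idx, Equiv.trans_apply, Equiv.symm_apply_apply, Equiv.sumCongr_apply,
    Sum.map_inr]
  rfl

/-- the map `M_n(R) → M_{3n}(R')` induced by a map `R → M_3(R')` -/
def wc1_amp {R' : Type*} (f : R → Matrix (Fin 3) (Fin 3) R') {n : ℕ}
    (x : Matrix (Fin n) (Fin n) R) : Matrix (Fin (n + n + n)) (Fin (n + n + n)) R' :=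
  Matrix.of fun i j => f (x (wc1_idx n i).1 (wc1_idx n j).1) (wc1_idx n i).2 (wc1_idx n j).2

variable {R' : Type*} [Ring R'] [StarRing R']

omit [StarRing R] [StarRing R'] in
lemma wc1_amp_mul (f : R →+* Matrix (Fin 3) (Fin 3) R') {n : ℕ} (x y : Matrix (Fin n) (Fin n) R) :
    wc1_amp f (x * y) = wc1_amp f x * wc1_amp f y := by
  ext i j
  simp only [wc1_amp, Matrix.of_apply, Matrix.mul_apply]
  rw [(wc1_idx n).sum_comp (fun k : Fin n × Fin 3 =>
    f (x (wc1_idx n i).1 k.1) (wc1_idx n i).2 k.2 * f (y k.1 (wc1_idx n j).1) k.2 (wc1_idx n j).2),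
    Fintype.sum_prod_type, map_sum, Matrix.sum_apply]
  refine Finset.sum_congr rfl fun l _ => ?_
  rw [map_mul, Matrix.mul_apply]

omit [StarRing R] [StarRing R'] in
lemma wc1_amp_one (f : R →+* Matrix (Fin 3) (Fin 3) R') {n : ℕ} :
    wc1_amp f (1 : Matrix (Fin n) (Fin n) R) = 1 := by
  ext i j
  simp only [wc1_amp, Matrix.of_apply, Matrix.one_apply]
  by_cases h1 : (wc1_idx n i).1 = (wc1_idx n j).1
  · rw [if_pos h1, map_one, Matrix.one_apply]
    by_cases h2 : (wc1_idx n i).2 = (wc1_idx n j).2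
    · rw [if_pos h2, if_pos ((wc1_idx n).injective (Prod.ext h1 h2))]
    · rw [if_neg h2, if_neg (fun h => h2 (by rw [h]))]
  · rw [if_neg h1, map_zero, Matrix.zero_apply, if_neg (fun h => h1 (by rw [h]))]

lemma wc1_amp_star (f : R → Matrix (Fin 3) (Fin 3) R') (hs : ∀ x, f (star x) = star (f x)) {n : ℕ}
    (x : Matrix (Fin n) (Fin n) R) :
    wc1_amp f (star x) = star (wc1_amp f x) := by
  ext i j
  simp only [wc1_amp, Matrix.of_apply, Matrix.star_apply, hs]

lemma wc1_amp_proj (f : R →+* Matrix (Fin 3) (Fin 3) R') (hs : ∀ x, f (star x) = star (f x))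
    {n : ℕ} {x : Matrix (Fin n) (Fin n) R} (hx : x ∈ proj R n) :
    wc1_amp f x ∈ proj R' (n + n + n) := by
  refine ⟨?_, ?_⟩
  · rw [← wc1_amp_mul, hx.1]
  · rw [← wc1_amp_star f hs, hx.2]

lemma wc1_amp_unit (f : R →+* Matrix (Fin 3) (Fin 3) R') (hs : ∀ x, f (star x) = star (f x))
    {n : ℕ} {x : Matrix (Fin n) (Fin n) R} (hx : x ∈ unit R n) :
    wc1_amp f x ∈ unit R' (n + n + n) := by
  refine ⟨?_, ?_⟩
  · rw [← wc1_amp_star f hs, ← wc1_amp_mul, hx.1, wc1_amp_one]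
  · rw [← wc1_amp_star f hs, ← wc1_amp_mul, hx.2, wc1_amp_one]

lemma wc1_amp_diagonal (f : R → Matrix (Fin 3) (Fin 3) R') (f₀ f₁ f₂ : R → R')
    (h : ∀ x, f x = Matrix.diagonal ![f₀ x, f₁ x, f₂ x])
    {n : ℕ} (x : Matrix (Fin n) (Fin n) R) :
    wc1_amp f x = bsum (bsum (x.map f₀) (x.map f₁)) (x.map f₂) := by
  ext i j
  simp only [wc1_amp, bsum, Matrix.of_apply, Matrix.submatrix_apply, h]
  obtain ⟨i', rfl⟩ := finSumFinEquiv.surjective i
  obtain ⟨j', rfl⟩ := finSumFinEquiv.surjective j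
  rcases i' with i' | i' <;> rcases j' with j' | j'
  · obtain ⟨i'', rfl⟩ := finSumFinEquiv.surjective i'
    obtain ⟨j'', rfl⟩ := finSumFinEquiv.surjective j'
    rcases i'' with i'' | i'' <;> rcases j'' with j'' | j'' <;>
      simp only [wc1_idx_zero, wc1_idx_one, wc1_idx_two, Equiv.symm_apply_apply,
        Matrix.fromBlocks_apply₁₁, Matrix.fromBlocks_apply₁₂, Matrix.fromBlocks_apply₂₁,
        Matrix.fromBlocks_apply₂₂, Matrix.submatrix_apply] <;>
      simp [Matrix.diagonal]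
  · obtain ⟨i'', rfl⟩ := finSumFinEquiv.surjective i'
    rcases i'' with i'' | i'' <;>
      simp only [wc1_idx_zero, wc1_idx_one, wc1_idx_two, Equiv.symm_apply_apply,
        Matrix.fromBlocks_apply₁₁, Matrix.fromBlocks_apply₁₂, Matrix.fromBlocks_apply₂₁,
        Matrix.fromBlocks_apply₂₂, Matrix.submatrix_apply] <;>
      simp [Matrix.diagonal]
  · obtain ⟨j'', rfl⟩ := finSumFinEquiv.surjective j'
    rcases j'' with j'' | j'' <;>
      simp only [wc1_idx_zero, wc1_idx_one, wc1_idx_two, Equiv.symm_apply_apply,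
        Matrix.fromBlocks_apply₁₁, Matrix.fromBlocks_apply₁₂, Matrix.fromBlocks_apply₂₁,
        Matrix.fromBlocks_apply₂₂, Matrix.submatrix_apply] <;>
      simp [Matrix.diagonal]
  · simp only [wc1_idx_zero, wc1_idx_one, wc1_idx_two, Equiv.symm_apply_apply,
        Matrix.fromBlocks_apply₁₁, Matrix.fromBlocks_apply₁₂, Matrix.fromBlocks_apply₂₁,
        Matrix.fromBlocks_apply₂₂, Matrix.submatrix_apply]
    simp [Matrix.diagonal]

end wc1_bsum

section wc1_main

/-- The abstract version: `[p] = [s p]` for all generators. -/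
lemma wc1_key {R : Type*} [Ring R] [StarRing R] [TopologicalSpace R]
    {P : ∀ n : ℕ, Set (Matrix (Fin n) (Fin n) R)} {e : ∀ n : ℕ, Matrix (Fin n) (Fin n) R}
    (hb : ∀ (m n : ℕ) (a : Matrix (Fin m) (Fin m) R) (b : Matrix (Fin n) (Fin n) R),
      a ∈ P m → b ∈ P n → bsum a b ∈ P (m + n))
    (f : ℝ → R →+* Matrix (Fin 3) (Fin 3) R) (hf : ∀ x, Continuous fun θ => f θ x)
    (hfP : ∀ (θ : ℝ) (n : ℕ) (x : Matrix (Fin n) (Fin n) R), x ∈ P n →
      wc1_amp (f θ) x ∈ P (n + n + n))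
    (φ s : R →+* R) (hφP : ∀ (n : ℕ) (x : Matrix (Fin n) (Fin n) R), x ∈ P n → x.map φ ∈ P n)
    (hsP : ∀ (n : ℕ) (x : Matrix (Fin n) (Fin n) R), x ∈ P n → x.map s ∈ P n)
    (h0 : ∀ x, f 0 x = Matrix.diagonal ![x, φ x, s x])
    (h1 : ∀ x, f 1 x = Matrix.diagonal ![s x, s x, φ x])
    {n : ℕ} (p : P n) :
    (KGrp.mk p : KGrp P e) = KGrp.mk ⟨p.1.map s, hsP n p.1 p.2⟩ := by
  set sp : P n := ⟨p.1.map s, hsP n p.1 p.2⟩ with hsp
  set φp : P n := ⟨p.1.map φ, hφP n p.1 p.2⟩ with hφp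
  have e0 : wc1_amp (f 0) p.1 = bsum (bsum p.1 φp.1) sp.1 := by
    have := wc1_amp_diagonal (R' := R) (f 0) (fun x => x) φ s h0 p.1
    rw [this]
    simp [hsp, hφp]
  have e1 : wc1_amp (f 1) p.1 = bsum (bsum sp.1 sp.1) φp.1 :=
    wc1_amp_diagonal (R' := R) (f 1) s s φ h1 p.1
  have hj : JoinedIn (P (n + n + n)) (wc1_amp (f 0) p.1) (wc1_amp (f 1) p.1) := by
    refine ⟨⟨⟨fun t => wc1_amp (f (t : ℝ)) p.1, ?_⟩, by simp, by simp⟩, fun t => hfP _ _ _ p.2⟩
    refine continuous_matrix fun i j => ?_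
    have := (hf (p.1 (wc1_idx n i).1 (wc1_idx n j).1)).matrix_elem (wc1_idx n i).2 (wc1_idx n j).2
    exact this.comp continuous_subtype_val
  have hm0 := hb _ _ _ _ (hb _ _ _ _ p.2 φp.2) sp.2
  have hm1 := hb _ _ _ _ (hb _ _ _ _ sp.2 sp.2) φp.2
  have k0 : (KGrp.mk (⟨bsum (bsum p.1 φp.1) sp.1, hm0⟩ : P (n + n + n)) : KGrp P e) =
      KGrp.mk p + KGrp.mk φp + KGrp.mk sp := by
    rw [wc1_mk_bsum (⟨bsum p.1 φp.1, hb _ _ _ _ p.2 φp.2⟩ : P (n + n)) sp _ rfl,
      wc1_mk_bsum p φp _ rfl]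
  have k1 : (KGrp.mk (⟨bsum (bsum sp.1 sp.1) φp.1, hm1⟩ : P (n + n + n)) : KGrp P e) =
      KGrp.mk sp + KGrp.mk sp + KGrp.mk φp := by
    rw [wc1_mk_bsum (⟨bsum sp.1 sp.1, hb _ _ _ _ sp.2 sp.2⟩ : P (n + n)) φp _ rfl,
      wc1_mk_bsum sp sp _ rfl]
  have k2 : (KGrp.mk (⟨bsum (bsum p.1 φp.1) sp.1, hm0⟩ : P (n + n + n)) : KGrp P e) =
      KGrp.mk (⟨bsum (bsum sp.1 sp.1) φp.1, hm1⟩ : P (n + n + n)) := by
    apply wc1_mk_eq_of_joined
    change JoinedIn (P (n + n + n)) (bsum (bsum p.1 φp.1) sp.1) (bsum (bsum sp.1 sp.1) φp.1)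
    rw [← e0, ← e1]
    exact hj
  rw [k0, k1] at k2
  have k3 : (KGrp.mk p : KGrp P e) + (KGrp.mk φp + KGrp.mk sp) =
      KGrp.mk sp + (KGrp.mk φp + KGrp.mk sp) := by
    calc (KGrp.mk p : KGrp P e) + (KGrp.mk φp + KGrp.mk sp) =
        KGrp.mk p + KGrp.mk φp + KGrp.mk sp := by abel
      _ = KGrp.mk sp + KGrp.mk sp + KGrp.mk φp := k2
      _ = _ := by abel
  exact add_right_cancel k3

variable (A : Type*) [NonUnitalCStarAlgebra A]

/-- the inclusion `ℂ → A⁺` -/
noncomputable def wc1_inc : ℂ →+* Unitization ℂ A := algebraMap ℂ (Unitization ℂ A)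

lemma wc1_inc_continuous : Continuous (wc1_inc A) := by
  unfold wc1_inc
  exact algebraMapCLM ℂ (Unitization ℂ A) |>.continuous

lemma wc1_inc_star (x : ℂ) : wc1_inc A (star x) = star (wc1_inc A x) := by
  unfold wc1_inc
  exact algebraMap_star_comm x

variable {A}

/-- the non-unital star homomorphism `A → M_3(A⁺)` -/
noncomputable def wc1_q (q : A →⋆ₙₐ[ℂ] Matrix (Fin 3) (Fin 3) A) :
    A →⋆ₙₐ[ℂ] Matrix (Fin 3) (Fin 3) (Unitization ℂ A) where
  toFun a := (q a).map Unitization.inr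
  map_smul' c a := by
    change (q (c • a)).map _ = c • (q a).map _
    rw [map_smul]
    refine Matrix.ext fun i j => ?_
    exact Unitization.inr_smul ℂ c (q a i j)
  map_zero' := by
    rw [map_zero]
    refine Matrix.ext fun i j => ?_
    exact Unitization.inr_zero ℂ
  map_add' a b := by
    rw [map_add]
    refine Matrix.ext fun i j => ?_
    exact Unitization.inr_add ℂ (q a i j) (q b i j)
  map_mul' a b := by
    rw [map_mul]
    refine Matrix.ext fun i j => ?_
    simp only [Matrix.map_apply, Matrix.mul_apply]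
    simp only [← Unitization.inr_mul]
    exact map_sum (Unitization.inrNonUnitalAlgHom ℂ A) _ _
  map_star' a := by
    rw [map_star]
    refine Matrix.ext fun i j => ?_
    simp only [Matrix.star_apply, Matrix.map_apply]
    exact Unitization.inr_star (q a j i)

/-- the unital star homomorphism `A⁺ → M_3(A⁺)` -/
noncomputable def wc1_psi (q : A →⋆ₙₐ[ℂ] Matrix (Fin 3) (Fin 3) A) :
    Unitization ℂ A →⋆ₐ[ℂ] Matrix (Fin 3) (Fin 3) (Unitization ℂ A) :=
  Unitization.starLift (wc1_q q)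

lemma wc1_psi_apply (q : A →⋆ₙₐ[ℂ] Matrix (Fin 3) (Fin 3) A) (x : Unitization ℂ A) :
    wc1_psi q x = algebraMap ℂ _ x.fst + (q x.snd).map Unitization.inr := by
  rfl

lemma wc1_psi_continuous (q : ℝ → A →⋆ₙₐ[ℂ] Matrix (Fin 3) (Fin 3) A)
    (hq : ∀ a, Continuous fun θ => q θ a) (x : Unitization ℂ A) :
    Continuous fun θ => wc1_psi (q θ) x := by
  simp only [wc1_psi_apply]
  refine continuous_const.add ?_
  exact Continuous.matrix_map (hq x.snd) Unitization.continuous_inr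

lemma wc1_psi_diagonal (q : A →⋆ₙₐ[ℂ] Matrix (Fin 3) (Fin 3) A) (f₀ f₁ f₂ : A → A)
    (h : ∀ a, q a = Matrix.diagonal ![f₀ a, f₁ a, f₂ a]) (x : Unitization ℂ A) :
    wc1_psi q x = Matrix.diagonal ![algebraMap ℂ _ x.fst + Unitization.inr (f₀ x.snd),
      algebraMap ℂ _ x.fst + Unitization.inr (f₁ x.snd),
      algebraMap ℂ _ x.fst + Unitization.inr (f₂ x.snd)] := by
  rw [wc1_psi_apply, h]
  refine Matrix.ext fun i j => ?_
  rw [Matrix.add_apply, Matrix.algebraMap_matrix_apply, Matrix.map_apply]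
  fin_cases i <;> fin_cases j <;>
    simp [Matrix.diagonal]

/-- **WC-1**. -/
theorem K_vanish (A : Type*) [NonUnitalCStarAlgebra A] (Φ : A →⋆ₙₐ[ℂ] A)
    (q : ℝ → A →⋆ₙₐ[ℂ] Matrix (Fin 3) (Fin 3) A) (hq : ∀ a, Continuous fun θ => q θ a)
    (h0 : ∀ a, q 0 a = Matrix.diagonal ![a, Φ a, 0])
    (h1 : ∀ a, q 1 a = Matrix.diagonal ![0, 0, Φ a]) :
    KZero A = ⊥ ∧ KOne A = ⊥ := by
  set f : ℝ → Unitization ℂ A →+* Matrix (Fin 3) (Fin 3) (Unitization ℂ A) :=
    fun θ => (wc1_psi (q θ) : Unitization ℂ A →+* Matrix (Fin 3) (Fin 3) (Unitization ℂ A))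
    with hfdef
  have hf : ∀ x, Continuous fun θ => f θ x := fun x => wc1_psi_continuous q hq x
  have hfs : ∀ θ x, f θ (star x) = star (f θ x) := fun θ x => map_star (wc1_psi (q θ)) x
  set φ : Unitization ℂ A →+* Unitization ℂ A :=
    (Unitization.starMap Φ : Unitization ℂ A →+* Unitization ℂ A) with hφdef
  have hφs : ∀ x, φ (star x) = star (φ x) := fun x => map_star (Unitization.starMap Φ) x
  have hφa : ∀ x : Unitization ℂ A,
      φ x = algebraMap ℂ _ x.fst + Unitization.inr (Φ x.snd) := by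
    intro x
    change Unitization.starMap Φ x = _
    rfl
  set s : Unitization ℂ A →+* Unitization ℂ A := (wc1_inc A).comp (aug A) with hsdef
  have hss : ∀ x, s (star x) = star (s x) := by
    intro x
    simp only [hsdef, RingHom.comp_apply, aug_star, wc1_inc_star]
  have hsa : ∀ x : Unitization ℂ A, s x = algebraMap ℂ _ x.fst := fun x => rfl
  have hx : ∀ x : Unitization ℂ A, algebraMap ℂ _ x.fst + Unitization.inr x.snd = x := fun x =>
    Unitization.inl_fst_add_inr_snd_eq x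
  have e0 : ∀ x, f 0 x = Matrix.diagonal ![x, φ x, s x] := by
    intro x
    change wc1_psi (q 0) x = _
    rw [wc1_psi_diagonal (q 0) (fun a => a) Φ (fun _ => 0) h0 x, hφa, hsa, hx]
    simp
  have e1 : ∀ x, f 1 x = Matrix.diagonal ![s x, s x, φ x] := by
    intro x
    change wc1_psi (q 1) x = _
    rw [wc1_psi_diagonal (q 1) (fun _ => 0) (fun _ => 0) Φ h1 x, hφa, hsa]
    simp
  have hsc : Continuous s := (wc1_inc_continuous A).comp (aug_continuous A)
  constructor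
  · rw [eq_bot_iff]
    intro x hx
    have hx0 : K0.map (aug A) (aug_continuous A) (aug_star A) x = 0 := hx
    have hid : (K0.map (wc1_inc A) (wc1_inc_continuous A) (wc1_inc_star A)).comp
        (K0.map (aug A) (aug_continuous A) (aug_star A)) = AddMonoidHom.id _ := by
      apply wc1_hom_ext
      intro n p
      rw [AddMonoidHom.comp_apply, AddMonoidHom.id_apply]
      unfold K0.map
      rw [wc1_map_mk, wc1_map_mk]
      rw [wc1_key (P := proj (Unitization ℂ A)) (e := fun _ => 0)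
        (fun m n a b ha hb => wc1_bsum_proj ha hb) f hf
        (fun θ n x hx => wc1_amp_proj (f θ) (hfs θ) hx) φ s
        (fun n x hx => proj_map φ hφs n x hx) (fun n x hx => proj_map s hss n x hx) e0 e1 p]
      congr 1
    have := DFunLike.congr_fun hid x
    rw [AddMonoidHom.comp_apply, hx0, map_zero] at this
    exact this.symm
  · rw [eq_bot_iff]
    intro x hx
    have hx0 : K1.map (aug A) (aug_continuous A) (aug_star A) x = 0 := hx
    have hid : (K1.map (wc1_inc A) (wc1_inc_continuous A) (wc1_inc_star A)).comp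
        (K1.map (aug A) (aug_continuous A) (aug_star A)) = AddMonoidHom.id _ := by
      apply wc1_hom_ext
      intro n p
      rw [AddMonoidHom.comp_apply, AddMonoidHom.id_apply]
      unfold K1.map
      rw [wc1_map_mk, wc1_map_mk]
      rw [wc1_key (P := unit (Unitization ℂ A)) (e := fun _ => 1)
        (fun m n a b ha hb => wc1_bsum_unit ha hb) f hf
        (fun θ n x hx => wc1_amp_unit (f θ) (hfs θ) hx) φ s
        (fun n x hx => unit_map φ hφs n x hx) (fun n x hx => unit_map s hss n x hx) e0 e1 p]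
      congr 1
    have := DFunLike.congr_fun hid x
    rw [AddMonoidHom.comp_apply, hx0, map_zero] at this
    exact this.symm

end wc1_main

end Pool.Agent.Helper84.WC
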